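import Pool.Agent.Helper94.HV.G

/-! # Weighted Brascamp-Lieb inequality with exponent -1/2, from the midpoint
Prekopa-Leindler inequality with exponent 3/2 (project MP_a2630c_FU, row BL) -/

set_option autoImplicit false

open MeasureTheory Set Metric Real Filter Topology
open scoped RealInnerProductSpace ENNReal
open Pool.Agent.Helper16.Buoy (E)

namespace Pool.Agent.Helper60.FU

/-! ### the function `z ↦ z ^ (3/2)` -/

theorem cube_convex (z x : ℝ) : √z ^ 3 - 3 / 2 * √z * x ≤ √(z - x) ^ 3 := by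
  rcases le_total z 0 with hz | hz
  · rw [sqrt_eq_zero_of_nonpos hz]
    simp
  · have hB : √z ^ 2 = z := sq_sqrt hz
    have hB0 := sqrt_nonneg z
    rcases le_total (z - x) 0 with h | h
    · rw [sqrt_eq_zero_of_nonpos h]
      have : z ≤ x := by linarith
      nlinarith [mul_le_mul_of_nonneg_left this hB0]
    · have hA : √(z - x) ^ 2 = z - x := sq_sqrt h
      have hA0 := sqrt_nonneg (z - x)
      have hx : x = √z ^ 2 - √(z - x) ^ 2 := by rw [hB, hA]; ring
      set A := √(z - x)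
      set B := √z
      rw [hx]
      nlinarith [mul_nonneg (sq_nonneg (A - B)) (add_nonneg hA0 (div_nonneg hB0 zero_le_two))]

theorem cube_second {z x : ℝ} (hz : 0 < z) (hx : |x| ≤ z) :
    √z ^ 3 - 3 / 2 * √z * x + 3 / 8 * (√(z + |x|))⁻¹ * x ^ 2 ≤ √(z - x) ^ 3 := by
  have hzx : 0 ≤ z - x := by have := le_abs_self x; linarith
  have hB : √z ^ 2 = z := sq_sqrt hz.le
  have hB0 : 0 < √z := sqrt_pos.2 hz
  have hA : √(z - x) ^ 2 = z - x := sq_sqrt hzx
  have hA0 := sqrt_nonneg (z - x)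
  have hD0 : 0 < √(z + |x|) := sqrt_pos.2 (by positivity)
  have hD : √(z + |x|) ^ 2 = z + |x| := sq_sqrt (by positivity)
  have hDB : √z ≤ √(z + |x|) := sqrt_le_sqrt (by have := abs_nonneg x; linarith)
  have hDA : √(z - x) ≤ √(z + |x|) := sqrt_le_sqrt (by have := neg_abs_le x; linarith)
  have hx' : x = √z ^ 2 - √(z - x) ^ 2 := by rw [hB, hA]; ring
  set A := √(z - x)
  set B := √z
  set D := √(z + |x|)
  have key : 3 * (A + B) ^ 2 ≤ 4 * ((2 * A + B) * D) := by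
    rcases le_total A B with h | h
    · nlinarith [mul_le_mul_of_nonneg_left hDB (show 0 ≤ 2 * A + B by positivity),
        mul_nonneg (sub_nonneg.2 h) (show 0 ≤ B + 3 * A by positivity)]
    · nlinarith [mul_le_mul_of_nonneg_left hDA (show 0 ≤ 2 * A + B by positivity),
        mul_nonneg (sub_nonneg.2 h) (show 0 ≤ 5 * A + 3 * B by positivity)]
  have e1 : A ^ 3 - (B ^ 3 - 3 / 2 * B * x) = (A - B) ^ 2 * (A + B / 2) := by
    rw [hx']; ring
  have e2 : 3 / 8 * D⁻¹ * x ^ 2 ≤ (A - B) ^ 2 * (A + B / 2) := by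
    have e3 : 3 / 8 * D⁻¹ * x ^ 2 = (A - B) ^ 2 * (3 / 8 * D⁻¹ * (A + B) ^ 2) := by
      rw [hx']; ring
    rw [e3]
    apply mul_le_mul_of_nonneg_left _ (sq_nonneg _)
    have e4 : 3 / 8 * D⁻¹ * (A + B) ^ 2 = (3 * (A + B) ^ 2) / (8 * D) := by
      field_simp
    rw [e4, div_le_iff₀ (by positivity)]
    nlinarith
  linarith

/-! ### the perturbed integrals -/

variable {n : ℕ}

/-- the linear function `B(e, y) - c`, `B` the bilinear form of `‖y‖² + ⟪v, y⟫²` -/
noncomputable def lin (v e : E n) (c : ℝ) (y : E n) : ℝ :=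
  inner ℝ e y + inner ℝ v e * inner ℝ v y - c

/-- the quadratic form `‖y‖² + ⟪v, y⟫²` -/
noncomputable def qf (v y : E n) : ℝ := ‖y‖ ^ 2 + (inner ℝ v y) ^ 2

theorem qf_nonneg (v y : E n) : 0 ≤ qf v y := by unfold qf; positivity

/-- the perturbation -/
noncomputable def xt (v e : E n) (c θ : ℝ) (y : E n) : ℝ := θ * lin v e c y + θ ^ 2 * qf v e / 4

theorem lin_cont (v e : E n) (c : ℝ) : Continuous (lin v e c) := by
  unfold lin
  fun_prop

theorem xt_cont (v e : E n) (c θ : ℝ) : Continuous (xt v e c θ) := by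
  unfold xt
  have := lin_cont v e c
  fun_prop

/-- data for the inequality -/
structure WD (Ω : Set (E n)) (W : E n → ℝ) (v : E n) : Prop where
  meas : MeasurableSet Ω
  conv : Convex ℝ Ω
  bdd : Bornology.IsBounded Ω
  wmeas : Measurable W
  wbdd : ∃ C : ℝ, ∀ y ∈ Ω, W y ≤ C
  conc : ConcaveOn ℝ Ω (fun y => W y + qf v y)

variable {Ω : Set (E n)} {W : E n → ℝ} {v : E n}

theorem WD.vol (h : WD Ω W v) : volume Ω < ∞ := h.bdd.measure_lt_top

theorem WD.ell (h : WD Ω W v) (e : E n) (c : ℝ) : ∃ L : ℝ, 0 ≤ L ∧ ∀ y ∈ Ω, |lin v e c y| ≤ L := by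
  obtain ⟨R, hR⟩ := h.bdd.exists_norm_le
  refine ⟨‖e‖ * |R| + |(inner ℝ v e : ℝ)| * (‖v‖ * |R|) + |c|, by positivity, fun y hy => ?_⟩
  have h1 : ‖y‖ ≤ |R| := (hR y hy).trans (le_abs_self R)
  unfold lin
  have h2 : |(inner ℝ e y : ℝ)| ≤ ‖e‖ * |R| :=
    (abs_real_inner_le_norm _ _).trans (mul_le_mul_of_nonneg_left h1 (norm_nonneg _))
  have h3 : |(inner ℝ v y : ℝ)| ≤ ‖v‖ * |R| :=
    (abs_real_inner_le_norm _ _).trans (mul_le_mul_of_nonneg_left h1 (norm_nonneg _))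
  calc |(inner ℝ e y : ℝ) + inner ℝ v e * inner ℝ v y - c|
      ≤ |(inner ℝ e y : ℝ) + inner ℝ v e * inner ℝ v y| + |c| := abs_sub _ _
    _ ≤ |(inner ℝ e y : ℝ)| + |(inner ℝ v e : ℝ) * inner ℝ v y| + |c| := by
        gcongr; exact abs_add_le _ _
    _ ≤ _ := by
        rw [abs_mul]
        gcongr

theorem WD.intg (h : WD Ω W v) {g : E n → ℝ} (hg : Measurable g) {C : ℝ}
    (hC : ∀ y ∈ Ω, |g y| ≤ C) : IntegrableOn g Ω := by
  refine Measure.integrableOn_of_bounded (M := C) h.vol.ne hg.aestronglyMeasurable ?_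
  rw [ae_restrict_iff' h.meas]
  exact Eventually.of_forall fun y hy => hC y hy

theorem WD.int_cube (h : WD Ω W v) (e : E n) (c θ : ℝ) :
    IntegrableOn (fun y => √(W y - xt v e c θ y) ^ 3) Ω := by
  obtain ⟨C, hC⟩ := h.wbdd
  obtain ⟨L, hL0, hL⟩ := h.ell e c
  have hx := (xt_cont v e c θ).measurable
  refine h.intg (C := √(C + (|θ| * L)) ^ 3) (by
    exact (((h.wmeas.sub hx).sqrt).pow_const 3)) fun y hy => ?_
  rw [abs_of_nonneg (by positivity)]
  apply pow_le_pow_left₀ (sqrt_nonneg _)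
  apply sqrt_le_sqrt
  unfold xt
  have h1 := hC y hy
  have h2 : -(|θ| * L) ≤ θ * lin v e c y := by
    have := neg_abs_le (θ * lin v e c y)
    rw [abs_mul] at this
    have h3 := mul_le_mul_of_nonneg_left (hL y hy) (abs_nonneg θ)
    linarith
  have h4 := qf_nonneg v e
  have h5 : 0 ≤ θ ^ 2 * qf v e / 4 := by positivity
  linarith

/-- the perturbed integral -/
noncomputable def NN (Ω : Set (E n)) (W : E n → ℝ) (v e : E n) (c θ : ℝ) : ℝ :=
  ∫ y in Ω, √(W y - xt v e c θ y) ^ 3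

theorem cube_mul {A B M : ℝ} (h : A + B ≤ 2 * M) : √A ^ 3 * √B ^ 3 ≤ (√M ^ 3) ^ 2 := by
  rcases le_total A 0 with hA | hA
  · rw [sqrt_eq_zero_of_nonpos hA, zero_pow (by norm_num), zero_mul]
    positivity
  rcases le_total B 0 with hB | hB
  · rw [sqrt_eq_zero_of_nonpos hB, zero_pow (by norm_num), mul_zero]
    positivity
  have hM : 0 ≤ M := by linarith
  have h1 : √A * √B ≤ √M ^ 2 := by
    rw [sq_sqrt hM]
    nlinarith [sq_nonneg (√A - √B), sq_sqrt hA, sq_sqrt hB]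
  calc √A ^ 3 * √B ^ 3 = (√A * √B) ^ 3 := by ring
    _ ≤ (√M ^ 2) ^ 3 := pow_le_pow_left₀ (by positivity) h1 3
    _ = (√M ^ 3) ^ 2 := by ring

theorem xt_mid (h : WD Ω W v) (e : E n) (c θ : ℝ) {y z : E n} (hy : y ∈ Ω) (hz : z ∈ Ω) :
    (W y - xt v e c θ y) + (W z - xt v e c (-θ) z) ≤ 2 * W ((1 / 2 : ℝ) • (y + z)) := by
  have h1 := h.conc.2 hy hz (show (0 : ℝ) ≤ 1 / 2 by norm_num) (show (0 : ℝ) ≤ 1 / 2 by norm_num)
    (by norm_num)
  simp only [smul_eq_mul] at h1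
  rw [← smul_add] at h1
  have h2 : 0 ≤ qf v (y - z + θ • e) := qf_nonneg _ _
  have h3 : qf v (y - z + θ • e) = qf v (y - z) + 2 * θ * (lin v e c y - lin v e c z)
      + θ ^ 2 * qf v e := by
    unfold qf lin
    rw [norm_add_sq_real, inner_add_right, inner_smul_right, inner_smul_right, norm_smul, mul_pow,
      Real.norm_eq_abs, sq_abs, inner_sub_left, inner_sub_right, real_inner_comm e y,
      real_inner_comm e z]
    ring
  have h4 : 2 * qf v y + 2 * qf v z = 4 * qf v ((1 / 2 : ℝ) • (y + z)) + qf v (y - z) := by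
    unfold qf
    rw [norm_smul, mul_pow, norm_add_sq_real, norm_sub_sq_real, inner_smul_right, inner_add_right,
      inner_sub_right]
    norm_num
    ring
  unfold xt
  linarith

theorem WD.lint (h : WD Ω W v) (e : E n) (c θ : ℝ) :
    ∫⁻ y, Ω.indicator (fun y => ENNReal.ofReal (√(W y - xt v e c θ y) ^ 3)) y =
      ENNReal.ofReal (NN Ω W v e c θ) := by
  rw [lintegral_indicator h.meas]
  unfold NN
  rw [ofReal_integral_eq_lintegral_ofReal (h.int_cube e c θ)]
  exact Eventually.of_forall fun y => by positivity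

theorem NN_nonneg (e : E n) (c θ : ℝ) : 0 ≤ NN Ω W v e c θ := by
  unfold NN
  exact integral_nonneg fun y => by positivity

theorem NN_mul (h : WD Ω W v) (e : E n) (c θ : ℝ) :
    NN Ω W v e c θ * NN Ω W v e c (-θ) ≤ NN Ω W v e c 0 ^ 2 := by
  have hm : ∀ θ, Measurable (Ω.indicator (fun y => ENNReal.ofReal (√(W y - xt v e c θ y) ^ 3))) :=
    fun θ => (((h.wmeas.sub (xt_cont v e c θ).measurable).sqrt).pow_const 3).ennreal_ofReal.indicator
      h.meas
  have key := Pool.Agent.Helper94.HV.G.pl_E (hm θ) (hm (-θ)) (hm 0) (by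
    intro y z
    by_cases hy : y ∈ Ω
    · by_cases hz : z ∈ Ω
      · have hmid : (1 / 2 : ℝ) • (y + z) ∈ Ω := by
          rw [smul_add]
          exact h.conv hy hz (by norm_num) (by norm_num) (by norm_num)
        rw [indicator_of_mem hy, indicator_of_mem hz, indicator_of_mem hmid,
          ← ENNReal.ofReal_mul (by positivity), ← ENNReal.ofReal_pow (by positivity)]
        apply ENNReal.ofReal_le_ofReal
        have h0 : xt v e c 0 ((1 / 2 : ℝ) • (y + z)) = 0 := by unfold xt; ring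
        rw [h0, sub_zero]
        exact cube_mul (xt_mid h e c θ hy hz)
      · rw [indicator_of_notMem hz, mul_zero]; exact bot_le
    · rw [indicator_of_notMem hy, zero_mul]; exact bot_le)
  rw [h.lint, h.lint, h.lint, ← ENNReal.ofReal_mul (NN_nonneg _ _ _),
    ← ENNReal.ofReal_pow (NN_nonneg _ _ _)] at key
  exact (ENNReal.ofReal_le_ofReal_iff (by have := NN_nonneg (Ω := Ω) (W := W) (v := v) e c 0; positivity)).1 key

/-! ### the second order lower bound -/

theorem pt_lower {w l q θ L η : ℝ} (hη : 0 < η) (hw : η ≤ w) (hq : 0 ≤ q) (hl : |l| ≤ L)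
    (hθ : |θ| ≤ 1) (hs : |θ| * (L + q / 4) ≤ η) :
    √w ^ 3 - 3 / 2 * √w * (θ * l + θ ^ 2 * q / 4) + 3 / 8 * θ ^ 2 * ((√w)⁻¹ * l ^ 2)
      - |θ| ^ 3 * (3 / 8 * (L * q / (2 * √η) + (L + q / 4) ^ 3 / (2 * η * √η)))
      ≤ √(w - (θ * l + θ ^ 2 * q / 4)) ^ 3 := by
  have hL : 0 ≤ L := (abs_nonneg _).trans hl
  have hw0 : 0 < w := hη.trans_le hw
  set x := θ * l + θ ^ 2 * q / 4 with hx
  have hθ0 := abs_nonneg θ
  have hθ2 : θ ^ 2 = |θ| ^ 2 := (sq_abs θ).symm
  have hxa : |x| ≤ |θ| * (L + q / 4) := by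
    have h1 : |x| ≤ |θ * l| + |θ ^ 2 * q / 4| := abs_add_le _ _
    have h2 : |θ * l| ≤ |θ| * L := by rw [abs_mul]; gcongr
    have h3 : |θ ^ 2 * q / 4| = |θ| ^ 2 * q / 4 := by
      rw [abs_of_nonneg (by positivity), hθ2]
    have h4 : |θ| ^ 2 * q / 4 ≤ |θ| * (q / 4) := by
      have : |θ| ^ 2 ≤ |θ| := by nlinarith
      nlinarith
    linarith
  have hxw : |x| ≤ w := (hxa.trans hs).trans hw
  have h0 := cube_second hw0 hxw
  have hη0 : 0 < √η := sqrt_pos.2 hη
  have hB0 : 0 < √w := sqrt_pos.2 hw0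
  have hB : √w ^ 2 = w := sq_sqrt hw0.le
  have hηB : √η ≤ √w := sqrt_le_sqrt hw
  have hηs : √η ^ 2 = η := sq_sqrt hη.le
  have hx0 := abs_nonneg x
  have hD0 : 0 < √(w + |x|) := sqrt_pos.2 (by positivity)
  have hD : √(w + |x|) ^ 2 = w + |x| := sq_sqrt (by positivity)
  have hDB : √w ≤ √(w + |x|) := sqrt_le_sqrt (by linarith)
  -- the inverse
  have h1 : (√w)⁻¹ - |x| / (2 * η * √η) ≤ (√(w + |x|))⁻¹ := by
    have e1 : √(w + |x|) - √w ≤ |x| / (2 * √w) := by
      rw [le_div_iff₀ (by positivity)]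
      nlinarith
    have e2 : (√w)⁻¹ - (√(w + |x|))⁻¹ = (√(w + |x|) - √w) / (√w * √(w + |x|)) := by
      field_simp
    have e3 : (√(w + |x|) - √w) / (√w * √(w + |x|)) ≤ |x| / (2 * √w) / (√w * √w) := by
      gcongr
    have e4 : |x| / (2 * √w) / (√w * √w) ≤ |x| / (2 * η * √η) := by
      rw [div_div]
      apply div_le_div_of_nonneg_left hx0 (by positivity)
      have : √η * (√η * √η) ≤ √w * (√w * √w) := by gcongr
      nlinarith
    linarith
  have h2 : θ ^ 2 * l ^ 2 - |θ| ^ 3 * (L * q / 2) ≤ x ^ 2 := by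
    have e1 : x ^ 2 = θ ^ 2 * l ^ 2 + θ ^ 3 * (l * q / 2) + (θ ^ 2 * q / 4) ^ 2 := by
      rw [hx]; ring
    have e2 : -(|θ| ^ 3 * (L * q / 2)) ≤ θ ^ 3 * (l * q / 2) := by
      have := neg_abs_le (θ ^ 3 * (l * q / 2))
      have e3 : |θ ^ 3 * (l * q / 2)| ≤ |θ| ^ 3 * (L * q / 2) := by
        rw [abs_mul, abs_pow]
        apply mul_le_mul_of_nonneg_left _ (by positivity)
        rw [abs_div, abs_mul, abs_of_nonneg hq]
        norm_num
        gcongr
      linarith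
    nlinarith [sq_nonneg (θ ^ 2 * q / 4)]
  have h3 : |x| ^ 3 ≤ |θ| ^ 3 * (L + q / 4) ^ 3 := by
    rw [← mul_pow]
    exact pow_le_pow_left₀ hx0 hxa 3
  have h4 : (√w)⁻¹ * x ^ 2 - |x| ^ 3 / (2 * η * √η) ≤ (√(w + |x|))⁻¹ * x ^ 2 := by
    have e1 := mul_le_mul_of_nonneg_right h1 (sq_nonneg x)
    have e2 : ((√w)⁻¹ - |x| / (2 * η * √η)) * x ^ 2 =
        (√w)⁻¹ * x ^ 2 - |x| ^ 3 / (2 * η * √η) := by
      rw [← sq_abs x]; ring
    rw [e2] at e1
    exact e1
  have h5 : (√w)⁻¹ * (θ ^ 2 * l ^ 2) - |θ| ^ 3 * (L * q / (2 * √η)) ≤ (√w)⁻¹ * x ^ 2 := by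
    have e1 := mul_le_mul_of_nonneg_left h2 (inv_pos.2 hB0).le
    have e2 : (√w)⁻¹ * (|θ| ^ 3 * (L * q / 2)) ≤ |θ| ^ 3 * (L * q / (2 * √η)) := by
      have e3 : (√w)⁻¹ ≤ (√η)⁻¹ := inv_anti₀ hη0 hηB
      calc (√w)⁻¹ * (|θ| ^ 3 * (L * q / 2)) ≤ (√η)⁻¹ * (|θ| ^ 3 * (L * q / 2)) := by gcongr
        _ = _ := by field_simp
    rw [mul_sub] at e1
    linarith
  have h6 : |x| ^ 3 / (2 * η * √η) ≤ |θ| ^ 3 * ((L + q / 4) ^ 3 / (2 * η * √η)) := by
    rw [← mul_div_assoc]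
    gcongr
  have e7 : 3 / 8 * (√(w + |x|))⁻¹ * x ^ 2 = 3 / 8 * ((√(w + |x|))⁻¹ * x ^ 2) := by ring
  rw [e7] at h0
  nlinarith

/-- the integral away from the boundary of `{0 < W}` -/
noncomputable def Ieta (Ω : Set (E n)) (W : E n → ℝ) (v e : E n) (c η : ℝ) : ℝ :=
  ∫ y in Ω ∩ {y | η ≤ W y}, (√(W y))⁻¹ * lin v e c y ^ 2

theorem WD.int_sqrt (h : WD Ω W v) : IntegrableOn (fun y => √(W y)) Ω := by
  obtain ⟨C, hC⟩ := h.wbdd
  refine h.intg (C := √C) h.wmeas.sqrt fun y hy => ?_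
  rw [abs_of_nonneg (sqrt_nonneg _)]
  exact sqrt_le_sqrt (hC y hy)

theorem WD.int_sqrt_lin (h : WD Ω W v) (e : E n) (c : ℝ) :
    IntegrableOn (fun y => √(W y) * lin v e c y) Ω := by
  obtain ⟨C, hC⟩ := h.wbdd
  obtain ⟨L, hL0, hL⟩ := h.ell e c
  refine h.intg (C := √C * L) (h.wmeas.sqrt.mul (lin_cont v e c).measurable) fun y hy => ?_
  rw [abs_mul, abs_of_nonneg (sqrt_nonneg _)]
  exact mul_le_mul (sqrt_le_sqrt (hC y hy)) (hL y hy) (abs_nonneg _) (sqrt_nonneg _)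

theorem WD.meas_eta (h : WD Ω W v) (η : ℝ) : MeasurableSet (Ω ∩ {y | η ≤ W y}) :=
  h.meas.inter (measurableSet_le measurable_const h.wmeas)

theorem WD.int_eta (h : WD Ω W v) (e : E n) (c : ℝ) {η : ℝ} (hη : 0 < η) :
    IntegrableOn (fun y => (√(W y))⁻¹ * lin v e c y ^ 2) (Ω ∩ {y | η ≤ W y}) := by
  obtain ⟨L, hL0, hL⟩ := h.ell e c
  refine Measure.integrableOn_of_bounded (M := (√η)⁻¹ * L ^ 2)
    ((measure_mono inter_subset_left).trans_lt h.vol).ne
    ((h.wmeas.sqrt.inv.mul ((lin_cont v e c).measurable.pow_const 2)).aestronglyMeasurable) ?_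
  rw [ae_restrict_iff' (h.meas_eta η)]
  refine Eventually.of_forall fun y hy => ?_
  rw [Real.norm_eq_abs, abs_of_nonneg (by positivity)]
  have h1 : (√(W y))⁻¹ ≤ (√η)⁻¹ := inv_anti₀ (sqrt_pos.2 hη) (sqrt_le_sqrt hy.2)
  have h2 : lin v e c y ^ 2 ≤ L ^ 2 := by
    rw [← sq_abs]
    exact pow_le_pow_left₀ (abs_nonneg _) (hL y hy.1) 2
  exact mul_le_mul h1 h2 (by positivity) (by positivity)

theorem NN_lower (h : WD Ω W v) (e : E n) (c : ℝ) {η : ℝ} (hη : 0 < η) :
    ∃ C θ0 : ℝ, 0 ≤ C ∧ 0 < θ0 ∧ ∀ θ : ℝ, |θ| ≤ θ0 →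
      NN Ω W v e c 0 - 3 / 2 * θ * (∫ y in Ω, √(W y) * lin v e c y) +
        θ ^ 2 * (3 / 8 * (Ieta Ω W v e c η - qf v e * ∫ y in Ω, √(W y)) - C * |θ|) ≤
        NN Ω W v e c θ := by
  obtain ⟨L, hL0, hL⟩ := h.ell e c
  set q := qf v e with hq
  have hq0 : 0 ≤ q := qf_nonneg v e
  set C0 := 3 / 8 * (L * q / (2 * √η) + (L + q / 4) ^ 3 / (2 * η * √η)) with hC0
  have hC00 : 0 ≤ C0 := by positivity
  refine ⟨C0 * (volume Ω).toReal, min 1 (η / (L + q / 4 + 1)), by positivity,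
    lt_min one_pos (by positivity), fun θ hθ => ?_⟩
  have hθ1 : |θ| ≤ 1 := hθ.trans (min_le_left _ _)
  have hθ2 : |θ| * (L + q / 4) ≤ η := by
    have h1 : |θ| ≤ η / (L + q / 4 + 1) := hθ.trans (min_le_right _ _)
    have h2 : |θ| * (L + q / 4 + 1) ≤ η := by
      rwa [le_div_iff₀ (by positivity)] at h1
    nlinarith [abs_nonneg θ]
  have h00 : NN Ω W v e c 0 = ∫ y in Ω, √(W y) ^ 3 := by
    unfold NN
    refine integral_congr_ae (Eventually.of_forall fun y => ?_)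
    simp [xt]
  have i0 : IntegrableOn (fun y => √(W y) ^ 3) Ω := by
    have := h.int_cube e c 0
    refine this.congr_fun (fun y _ => ?_) h.meas
    simp [xt]
  have i1 := (h.int_sqrt_lin e c).const_mul (3 / 2 * θ)
  have i2 := h.int_sqrt.const_mul (3 / 8 * θ ^ 2 * q)
  have i3 : IntegrableOn (fun y => 3 / 8 * θ ^ 2 *
      ({y | η ≤ W y}.indicator (fun y => (√(W y))⁻¹ * lin v e c y ^ 2) y)) Ω := by
    apply Integrable.const_mul
    have hms : MeasurableSet {y : E n | η ≤ W y} := measurableSet_le measurable_const h.wmeas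
    rw [integrable_indicator_iff hms, IntegrableOn, Measure.restrict_restrict hms, inter_comm]
    exact h.int_eta e c hη
  have i4 : IntegrableOn (fun _ : E n => |θ| ^ 3 * C0) Ω := integrableOn_const h.vol.ne
  have j1 : Integrable (fun y => √(W y) ^ 3 - 3 / 2 * θ * (√(W y) * lin v e c y))
    (volume.restrict Ω) := i0.sub i1
  have j2 : Integrable (fun y => √(W y) ^ 3 - 3 / 2 * θ * (√(W y) * lin v e c y)
    - 3 / 8 * θ ^ 2 * q * √(W y)) (volume.restrict Ω) := j1.sub i2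
  have j3 : Integrable (fun y => √(W y) ^ 3 - 3 / 2 * θ * (√(W y) * lin v e c y)
    - 3 / 8 * θ ^ 2 * q * √(W y) + 3 / 8 * θ ^ 2 *
      ({y | η ≤ W y}.indicator (fun y => (√(W y))⁻¹ * lin v e c y ^ 2) y))
      (volume.restrict Ω) := j2.add i3
  have key : ∫ y in Ω, (√(W y) ^ 3 - 3 / 2 * θ * (√(W y) * lin v e c y)
      - 3 / 8 * θ ^ 2 * q * √(W y) + 3 / 8 * θ ^ 2 *
      ({y | η ≤ W y}.indicator (fun y => (√(W y))⁻¹ * lin v e c y ^ 2) y) - |θ| ^ 3 * C0) ≤
      NN Ω W v e c θ := by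
    unfold NN
    refine setIntegral_mono_on (j3.sub i4) (h.int_cube e c θ) h.meas
      fun y hy => ?_
    by_cases hw : η ≤ W y
    · rw [indicator_of_mem (show y ∈ {y | η ≤ W y} from hw)]
      have := pt_lower hη hw hq0 (hL y hy) hθ1 hθ2
      unfold xt
      rw [← hq]
      refine le_trans (le_of_eq ?_) this
      rw [← hC0]
      ring
    · rw [indicator_of_notMem (show y ∉ {y | η ≤ W y} from hw)]
      have := cube_convex (W y) (xt v e c θ y)
      refine le_trans ?_ this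
      unfold xt
      rw [← hq]
      have : 0 ≤ |θ| ^ 3 * C0 := by positivity
      nlinarith
  rw [integral_sub j3 i4, integral_add j2 i3, integral_sub j1 i2, integral_sub i0 i1, integral_const_mul, integral_const_mul,
    integral_const_mul, setIntegral_const, smul_eq_mul, ← h00] at key
  have e1 : ∫ y in Ω, ({y | η ≤ W y}.indicator (fun y => (√(W y))⁻¹ * lin v e c y ^ 2) y) =
      Ieta Ω W v e c η := by
    have hms : MeasurableSet {y : E n | η ≤ W y} := measurableSet_le measurable_const h.wmeas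
    rw [integral_indicator hms, Measure.restrict_restrict hms, inter_comm]
    rfl
  rw [e1] at key
  have e2 : |θ| ^ 3 = θ ^ 2 * |θ| := by rw [← sq_abs θ]; ring
  rw [e2] at key
  have e3 : volume.real Ω = (volume Ω).toReal := rfl
  rw [e3] at key
  refine le_trans (le_of_eq ?_) key
  ring

/-! ### the inequality -/

theorem eta_ineq (h : WD Ω W v) (e : E n) (c : ℝ) {η : ℝ} (hη : 0 < η) :
    Ieta Ω W v e c η * NN Ω W v e c 0 ≤
      qf v e * (∫ y in Ω, √(W y)) * NN Ω W v e c 0 +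
        3 * (∫ y in Ω, √(W y) * lin v e c y) ^ 2 := by
  obtain ⟨C, θ0, hC, hθ0, H⟩ := NN_lower h e c hη
  set N0 := NN Ω W v e c 0 with hN0
  set N1 := ∫ y in Ω, √(W y) * lin v e c y with hN1
  set β := 3 / 8 * (Ieta Ω W v e c η - qf v e * ∫ y in Ω, √(W y)) with hβ
  have hN00 : 0 ≤ N0 := NN_nonneg e c 0
  rcases hN00.eq_or_lt with h0 | h0
  · rw [← h0]
    nlinarith [sq_nonneg N1]
  -- small θ
  have key : 2 * N0 * β ≤ 9 / 4 * N1 ^ 2 := by
    by_contra hcon
    push Not at hcon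
    -- choose a small θ
    set M := 3 / 2 * |N1| + |β| + C + 1 with hM
    have hM0 : 0 < M := by positivity
    set gap := 2 * N0 * β - 9 / 4 * N1 ^ 2 with hgap
    have hgap0 : 0 < gap := by rw [hgap]; linarith
    set θ := min (min θ0 1) (min (N0 / (2 * M)) (gap / (4 * N0 * (C + 1)))) with hθ
    have t0 : 0 < θ := by
      rw [hθ]
      refine lt_min (lt_min hθ0 one_pos) (lt_min (by positivity) (by positivity))
    have t1 : θ ≤ θ0 := (min_le_left _ _).trans (min_le_left _ _)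
    have t2 : θ ≤ 1 := (min_le_left _ _).trans (min_le_right _ _)
    have t3 : θ ≤ N0 / (2 * M) := (min_le_right _ _).trans (min_le_left _ _)
    have t4 : θ ≤ gap / (4 * N0 * (C + 1)) := (min_le_right _ _).trans (min_le_right _ _)
    have t3' : θ * (2 * M) ≤ N0 := by rwa [le_div_iff₀ (by positivity)] at t3
    have t4' : θ * (4 * N0 * (C + 1)) ≤ gap := by rwa [le_div_iff₀ (by positivity)] at t4
    have a1 := H θ (by rw [abs_of_pos t0]; exact t1)
    have a2 := H (-θ) (by rw [abs_neg, abs_of_pos t0]; exact t1)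
    rw [abs_of_pos t0] at a1
    rw [abs_neg, abs_of_pos t0] at a2
    have a3 := NN_mul h e c θ
    have hb := abs_nonneg β
    have hn := abs_nonneg N1
    have hb1 := neg_abs_le β
    have hn1 := neg_abs_le N1
    have hn2 := le_abs_self N1
    -- lower bounds are positive
    have p1 : 0 ≤ N0 - 3 / 2 * θ * N1 + θ ^ 2 * (β - C * θ) := by
      have e1 : 3 / 2 * θ * N1 ≤ θ * (3 / 2 * |N1|) := by nlinarith
      have e2 : -(θ * (|β| + C)) ≤ θ ^ 2 * (β - C * θ) := by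
        have e3 : -(|β| + C) ≤ β - C * θ := by nlinarith
        have e4 : θ ^ 2 * (-(|β| + C)) ≤ θ ^ 2 * (β - C * θ) :=
          mul_le_mul_of_nonneg_left e3 (by positivity)
        have e5 : θ ^ 2 * (|β| + C) ≤ θ * (|β| + C) := by
          apply mul_le_mul_of_nonneg_right _ (by positivity)
          nlinarith
        linarith
      have e6 : θ * M ≤ N0 := by nlinarith
      rw [hM] at e6
      nlinarith
    have p2 : 0 ≤ N0 - 3 / 2 * (-θ) * N1 + (-θ) ^ 2 * (β - C * θ) := by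
      have e1 : -(3 / 2 * θ * N1) ≤ θ * (3 / 2 * |N1|) := by nlinarith
      have e2 : -(θ * (|β| + C)) ≤ θ ^ 2 * (β - C * θ) := by
        have e3 : -(|β| + C) ≤ β - C * θ := by nlinarith
        have e4 : θ ^ 2 * (-(|β| + C)) ≤ θ ^ 2 * (β - C * θ) :=
          mul_le_mul_of_nonneg_left e3 (by positivity)
        have e5 : θ ^ 2 * (|β| + C) ≤ θ * (|β| + C) := by
          apply mul_le_mul_of_nonneg_right _ (by positivity)
          nlinarith
        linarith
      have e6 : θ * M ≤ N0 := by nlinarith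
      rw [hM] at e6
      nlinarith
    have a4 : (N0 - 3 / 2 * θ * N1 + θ ^ 2 * (β - C * θ)) *
        (N0 - 3 / 2 * (-θ) * N1 + (-θ) ^ 2 * (β - C * θ)) ≤ N0 ^ 2 :=
      (mul_le_mul a1 a2 p2 (p1.trans a1)).trans a3
    have a5 : θ ^ 2 * (2 * N0 * (β - C * θ) - 9 / 4 * N1 ^ 2) ≤ 0 := by
      nlinarith [sq_nonneg (θ ^ 2 * (β - C * θ))]
    have a6 : 2 * N0 * (β - C * θ) - 9 / 4 * N1 ^ 2 ≤ 0 := by
      by_contra hc
      push Not at hc
      have := mul_pos (pow_pos t0 2) hc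
      linarith
    nlinarith
  rw [hβ] at key
  nlinarith

/-- **Weighted Brascamp-Lieb inequality**: if `W + ‖y‖² + ⟪v, y⟫²` is concave on `Ω`, then
`∫ W^(-1/2) ℓ² · ∫ W^(3/2) ≤ q ∫ W^(1/2) · ∫ W^(3/2) + 3 (∫ W^(1/2) ℓ)²` over `{W > 0}`,
`ℓ = B(e, y) - c`, `q = ‖e‖² + ⟪v, e⟫²`. -/
theorem BL (h : WD Ω W v) (e : E n) (c : ℝ) :
    IntegrableOn (fun y => (√(W y))⁻¹ * lin v e c y ^ 2) Ω ∧
      (∫ y in Ω, (√(W y))⁻¹ * lin v e c y ^ 2) * (∫ y in Ω, √(W y) ^ 3) ≤
        qf v e * (∫ y in Ω, √(W y)) * (∫ y in Ω, √(W y) ^ 3) +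
          3 * (∫ y in Ω, √(W y) * lin v e c y) ^ 2 := by
  have h00 : NN Ω W v e c 0 = ∫ y in Ω, √(W y) ^ 3 := by
    unfold NN
    refine integral_congr_ae (Eventually.of_forall fun y => ?_)
    simp [xt]
  have i0 : IntegrableOn (fun y => √(W y) ^ 3) Ω := by
    have := h.int_cube e c 0
    refine this.congr_fun (fun y _ => ?_) h.meas
    simp [xt]
  set g : E n → ℝ := fun y => (√(W y))⁻¹ * lin v e c y ^ 2 with hg
  have hgm : Measurable g := h.wmeas.sqrt.inv.mul ((lin_cont v e c).measurable.pow_const 2)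
  have hg0 : ∀ y, 0 ≤ g y := fun y => by rw [hg]; positivity
  -- if `W ≤ 0` almost everywhere
  rcases (NN_nonneg (Ω := Ω) (W := W) (v := v) e c 0).eq_or_lt with h0 | h0
  · have hz : (fun y => √(W y) ^ 3) =ᵐ[volume.restrict Ω] 0 := by
      rw [← integral_eq_zero_iff_of_nonneg (fun y => by positivity) i0]
      rw [← h00, ← h0]
    have hz2 : g =ᵐ[volume.restrict Ω] 0 := by
      filter_upwards [hz] with y hy
      have : √(W y) = 0 := by
        have h1 : √(W y) ^ 3 = 0 := hy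
        exact pow_eq_zero_iff (by norm_num) |>.1 h1
      rw [hg]
      simp [this]
    refine ⟨(integrable_zero _ _ _).congr hz2.symm, ?_⟩
    rw [← h00, ← h0]
    nlinarith [sq_nonneg (∫ y in Ω, √(W y) * lin v e c y)]
  set R := (qf v e * (∫ y in Ω, √(W y)) * NN Ω W v e c 0 +
    3 * (∫ y in Ω, √(W y) * lin v e c y) ^ 2) / NN Ω W v e c 0 with hR
  have hI : ∀ η : ℝ, 0 < η → Ieta Ω W v e c η ≤ R := by
    intro η hη
    rw [hR, le_div_iff₀ h0]
    exact eta_ineq h e c hη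
  have hR0 : 0 ≤ R := by
    have h1 : 0 ≤ Ieta Ω W v e c 1 := by
      unfold Ieta
      exact integral_nonneg fun y => hg0 y
    exact h1.trans (hI 1 one_pos)
  -- monotone convergence
  let A : ℕ → Set (E n) := fun k => Ω ∩ {y | 1 / ((k : ℝ) + 1) ≤ W y}
  have hA : ∀ k, MeasurableSet (A k) := fun k => h.meas_eta _
  have hlim : ∫⁻ y in Ω, ENNReal.ofReal (g y) ≤ ENNReal.ofReal R := by
    have e1 : ∫⁻ y in Ω, ENNReal.ofReal (g y) =
        ⨆ k, ∫⁻ y in A k, ENNReal.ofReal (g y) := by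
      have e2 : ∫⁻ y in Ω, ENNReal.ofReal (g y) = ∫⁻ y in ⋃ k, A k, ENNReal.ofReal (g y) := by
        have hU : (⋃ k, A k) = Ω ∩ {y | 0 < W y} := by
          ext y
          simp only [A, mem_iUnion, mem_inter_iff, mem_setOf_eq]
          constructor
          · rintro ⟨k, h1, h2⟩
            exact ⟨h1, lt_of_lt_of_le (by positivity) h2⟩
          · rintro ⟨h1, h2⟩
            obtain ⟨k, hk⟩ := exists_nat_one_div_lt h2
            exact ⟨k, h1, hk.le⟩
        rw [hU]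
        have hms : MeasurableSet {y : E n | 0 < W y} := measurableSet_lt measurable_const h.wmeas
        rw [inter_comm, ← Measure.restrict_restrict hms, ← lintegral_indicator hms]
        refine lintegral_congr fun y => ?_
        by_cases hy : 0 < W y
        · rw [indicator_of_mem (show y ∈ {y | 0 < W y} from hy)]
        · rw [indicator_of_notMem (show y ∉ {y | 0 < W y} from hy)]
          have : √(W y) = 0 := sqrt_eq_zero_of_nonpos (not_lt.1 hy)
          rw [hg]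
          simp [this]
      rw [e2, setLIntegral_iUnion_of_directed]
      apply directed_of_isDirected_le
      intro i j hij y hy
      refine ⟨hy.1, ?_⟩
      show 1 / ((j : ℝ) + 1) ≤ W y
      refine le_trans ?_ hy.2
      apply one_div_le_one_div_of_le (by positivity)
      have : (i : ℝ) ≤ j := by exact_mod_cast hij
      linarith
    rw [e1]
    refine iSup_le fun k => ?_
    have hpos : (0 : ℝ) < 1 / ((k : ℝ) + 1) := by positivity
    rw [← ofReal_integral_eq_lintegral_ofReal (h.int_eta e c hpos) (Eventually.of_forall hg0)]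
    exact ENNReal.ofReal_le_ofReal (hI _ hpos)
  have hint : IntegrableOn g Ω := by
    refine ⟨hgm.aestronglyMeasurable, ?_⟩
    rw [hasFiniteIntegral_iff_ofReal (Eventually.of_forall hg0)]
    exact hlim.trans_lt ENNReal.ofReal_lt_top
  refine ⟨hint, ?_⟩
  have h1 : ∫ y in Ω, g y ≤ R := by
    rw [← ofReal_integral_eq_lintegral_ofReal hint (Eventually.of_forall hg0)] at hlim
    exact (ENNReal.ofReal_le_ofReal_iff hR0).1 hlim
  rw [← h00]
  have h2 := mul_le_mul_of_nonneg_right h1 h0.le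
  rw [hR, div_mul_cancel₀ _ h0.ne'] at h2
  exact h2

/-- The inequality for `W y = F y - (τ - ⟪v, y⟫)²`, `F + ‖y‖²` concave on `K`. -/
theorem BL_F {K : Set (E n)} (hKm : MeasurableSet K) (hKc : Convex ℝ K)
    (hKb : Bornology.IsBounded K) {F : E n → ℝ} (hF : ContinuousOn F K)
    (hFb : ∃ C : ℝ, ∀ y ∈ K, F y ≤ C) (hconc : ConcaveOn ℝ K (fun y => F y + ‖y‖ ^ 2))
    (v e : E n) (τ c : ℝ) :
    IntegrableOn (fun y => (√(F y - (τ - inner ℝ v y) ^ 2))⁻¹ *
        (inner ℝ e y + inner ℝ v e * inner ℝ v y - c) ^ 2) K ∧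
      (∫ y in K, (√(F y - (τ - inner ℝ v y) ^ 2))⁻¹ *
        (inner ℝ e y + inner ℝ v e * inner ℝ v y - c) ^ 2) *
        (∫ y in K, √(F y - (τ - inner ℝ v y) ^ 2) ^ 3) ≤
      (‖e‖ ^ 2 + (inner ℝ v e : ℝ) ^ 2) * (∫ y in K, √(F y - (τ - inner ℝ v y) ^ 2)) *
          (∫ y in K, √(F y - (τ - inner ℝ v y) ^ 2) ^ 3) +
        3 * (∫ y in K, √(F y - (τ - inner ℝ v y) ^ 2) *
          (inner ℝ e y + inner ℝ v e * inner ℝ v y - c)) ^ 2 := by
  classical
  set F' : E n → ℝ := K.piecewise F 0 with hF'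
  have hF'K : ∀ y ∈ K, F' y = F y := fun y hy => by rw [hF', piecewise_eq_of_mem _ _ _ hy]
  have hF'm : Measurable F' := hF.measurable_piecewise continuousOn_const hKm
  set W : E n → ℝ := fun y => F' y - (τ - inner ℝ v y) ^ 2 with hW
  have hWK : ∀ y ∈ K, W y = F y - (τ - inner ℝ v y) ^ 2 := fun y hy => by
    rw [hW]; simp only; rw [hF'K y hy]
  obtain ⟨C, hC⟩ := hFb
  have hwd : WD K W v := by
    refine ⟨hKm, hKc, hKb, ?_, ⟨C, fun y hy => ?_⟩, hKc, ?_⟩
    · exact hF'm.sub (by fun_prop)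
    · rw [hWK y hy]
      nlinarith [hC y hy, sq_nonneg (τ - inner ℝ v y)]
    · intro y hy z hz a b ha hb hab
      have h1 := hconc.2 hy hz ha hb hab
      have hm := hKc hy hz ha hb hab
      simp only [smul_eq_mul] at h1 ⊢
      rw [hWK y hy, hWK z hz, hWK _ hm]
      unfold qf
      rw [inner_add_right, inner_smul_right, inner_smul_right]
      have hb' : b = 1 - a := by linarith
      subst hb'
      nlinarith
  have key := BL hwd e c
  have c1 : ∫ y in K, (√(W y))⁻¹ * lin v e c y ^ 2 =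
      ∫ y in K, (√(F y - (τ - inner ℝ v y) ^ 2))⁻¹ *
        (inner ℝ e y + inner ℝ v e * inner ℝ v y - c) ^ 2 :=
    setIntegral_congr_fun hKm fun y hy => by simp only [lin]; rw [hWK y hy]
  have c2 : ∫ y in K, √(W y) ^ 3 = ∫ y in K, √(F y - (τ - inner ℝ v y) ^ 2) ^ 3 :=
    setIntegral_congr_fun hKm fun y hy => by beta_reduce; rw [hWK y hy]
  have c3 : ∫ y in K, √(W y) = ∫ y in K, √(F y - (τ - inner ℝ v y) ^ 2) :=
    setIntegral_congr_fun hKm fun y hy => by beta_reduce; rw [hWK y hy]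
  have c4 : ∫ y in K, √(W y) * lin v e c y = ∫ y in K, √(F y - (τ - inner ℝ v y) ^ 2) *
      (inner ℝ e y + inner ℝ v e * inner ℝ v y - c) :=
    setIntegral_congr_fun hKm fun y hy => by simp only [lin]; rw [hWK y hy]
  rw [c1, c2, c3, c4] at key
  refine ⟨key.1.congr_fun (fun y hy => ?_) hKm, key.2⟩
  simp only [lin]
  rw [hWK y hy]

end Pool.Agent.Helper60.FU
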