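import Pool.Agent.Helper73.FU.Stmts
import Pool.Agent.Helper60.FU.BL

/-! # Row S_bl of MP_a2630c_FU -/

set_option autoImplicit false

open MeasureTheory Set Metric Real Filter Topology
open scoped RealInnerProductSpace ENNReal
open Pool.Agent.Helper16.Buoy (E cap IsEllipsoid Homothetic buoyancyBody)
open Pool.Agent.Helper73.LR (CB vol GG Sol aff)
open Pool.Agent.Helper73.FU

namespace Pool.Agent.Helper60.FU

theorem ae_int_eq {n : ℕ} {K : Set (E n)} (hK : CB K) : interior K =ᵐ[volume] K := by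
  have h0 : volume (frontier K) = 0 := hK.conv.addHaar_frontier volume
  refine (interior_subset.eventuallyLE).antisymm ?_
  refine ae_le_set.2 (measure_mono_null ?_ h0)
  rintro x ⟨h1, h2⟩
  exact ⟨subset_closure h1, h2⟩

theorem s_bl : S_bl := by
  classical
  intro n K W v a γ hK hconc hbdd
  obtain ⟨C, hC⟩ := hbdd
  set Ω := interior K with hΩ
  have hΩo : IsOpen Ω := isOpen_interior
  have hΩm : MeasurableSet Ω := hΩo.measurableSet
  have hΩc : Convex ℝ Ω := hK.conv.interior
  have hΩb : Bornology.IsBounded Ω := hK.comp.isBounded.subset interior_subset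
  -- continuity of `W` on the interior
  have hcont : ContinuousOn W Ω := by
    have h1 : ContinuousOn (fun y => W y + ‖y‖ ^ 2 + inner ℝ v y ^ 2) Ω :=
      hconc.continuousOn hΩo
    have h2 : ContinuousOn (fun y : E n => ‖y‖ ^ 2 + inner ℝ v y ^ 2) Ω :=
      (by fun_prop : Continuous (fun y : E n => ‖y‖ ^ 2 + inner ℝ v y ^ 2)).continuousOn
    refine (h1.sub h2).congr fun y _ => ?_
    simp only [Pi.sub_apply]
    ring
  set W' : E n → ℝ := Ω.piecewise W 0 with hW'
  have hWΩ : ∀ y ∈ Ω, W' y = W y := fun y hy => by rw [hW', piecewise_eq_of_mem _ _ _ hy]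
  have hW'm : Measurable W' := hcont.measurable_piecewise continuousOn_const hΩm
  have hwd : WD Ω W' v := by
    refine ⟨hΩm, hΩc, hΩb, hW'm, ⟨C, fun y hy => ?_⟩, ?_⟩
    · rw [hWΩ y hy]; exact hC y hy
    · refine hconc.congr fun y hy => ?_
      simp only [qf]
      rw [hWΩ y hy]
      ring
  set s : ℝ := inner ℝ v a / (1 + ‖v‖ ^ 2) with hs
  have hs1 : s * (1 + ‖v‖ ^ 2) = inner ℝ v a := by
    rw [hs]
    have : (1 + ‖v‖ ^ 2) ≠ 0 := by positivity
    field_simp
  set e : E n := a - s • v with he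
  have hve : (inner ℝ v e : ℝ) = s := by
    rw [he, inner_sub_right, inner_smul_right, real_inner_self_eq_norm_sq]
    linarith
  have hlin : ∀ y, lin v e γ y = inner ℝ a y - γ := by
    intro y
    unfold lin
    rw [hve, he, inner_sub_left, inner_smul_left]
    simp
  have hqf : qf v e = qq v a := by
    unfold qf qq
    rw [hve, he, norm_sub_sq_real, norm_smul, mul_pow, Real.norm_eq_abs, sq_abs, inner_smul_right,
      real_inner_comm v a]
    have h1 : (inner ℝ v a : ℝ) ^ 2 / (1 + ‖v‖ ^ 2) = s * inner ℝ v a := by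
      rw [hs]; ring
    rw [h1, ← hs1]
    ring
  have key := BL hwd e γ
  have hae := ae_int_eq hK
  have c1 : ∫ y in Ω, (√(W' y))⁻¹ * lin v e γ y ^ 2 =
      ∫ y in K, (√(W y))⁻¹ * (inner ℝ a y - γ) ^ 2 := by
    rw [← setIntegral_congr_set hae]
    exact setIntegral_congr_fun hΩm fun y hy => by beta_reduce; rw [hWΩ y hy, hlin]
  have c2 : ∫ y in Ω, √(W' y) ^ 3 = ∫ y in K, √(W y) ^ 3 := by
    rw [← setIntegral_congr_set hae]
    exact setIntegral_congr_fun hΩm fun y hy => by beta_reduce; rw [hWΩ y hy]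
  have c3 : ∫ y in Ω, √(W' y) = ∫ y in K, √(W y) := by
    rw [← setIntegral_congr_set hae]
    exact setIntegral_congr_fun hΩm fun y hy => by beta_reduce; rw [hWΩ y hy]
  have c4 : ∫ y in Ω, √(W' y) * lin v e γ y = ∫ y in K, √(W y) * (inner ℝ a y - γ) := by
    rw [← setIntegral_congr_set hae]
    exact setIntegral_congr_fun hΩm fun y hy => by beta_reduce; rw [hWΩ y hy, hlin]
  rw [c1, c2, c3, c4, hqf] at key
  refine ⟨?_, key.2⟩
  have h1 : IntegrableOn (fun y => (√(W y))⁻¹ * (inner ℝ a y - γ) ^ 2) Ω :=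
    key.1.congr_fun (fun y hy => by beta_reduce; rw [hWΩ y hy, hlin]) hΩm
  exact h1.congr_set_ae hae.symm

end Pool.Agent.Helper60.FU
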